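import Pool.Agent.helper95.T5.SpecE

set_option autoImplicit false

/-!
# T5 (MP_16912e_nt), row BCA: one block of BC
-/

namespace Pool.Agent.T5

open Finset NumberField Pool.Agent.helper3.FT Pool.Agent.helper47.RA

/-- number of integers of an interval in a residue class -/
theorem BCA_cnt (m₀ r : ℤ) (M P : ℕ) (hP : 1 ≤ P) :
    (((Ico m₀ (m₀ + M)).filter (fun m => (P : ℤ) ∣ m - r)).card : ℝ) ≤ (M : ℝ) / P + 1 := by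
  have hP' : (0 : ℤ) < P := by exact_mod_cast hP
  have h1 : (Ico m₀ (m₀ + M)).filter (fun m => (P : ℤ) ∣ m - r) =
      (Ico m₀ (m₀ + M)).filter (fun m => m ≡ r [ZMOD P]) := by
    refine Finset.filter_congr fun m _ => ?_
    rw [Int.modEq_iff_dvd, ← neg_sub r m, dvd_neg]
  rw [h1]
  have h2 := Int.Ico_filter_modEq_card m₀ (m₀ + M) hP' r
  have hPQ : (0 : ℚ) < (P : ℤ) := by exact_mod_cast hP'
  have h3 : ⌈((m₀ : ℤ) - r : ℚ) / ((P : ℤ) : ℚ)⌉ ≤ ⌈(((m₀ + M : ℤ) : ℚ) - r) / ((P : ℤ) : ℚ)⌉ := by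
    apply Int.ceil_le_ceil
    apply div_le_div_of_nonneg_right _ hPQ.le
    push_cast
    have : (0 : ℚ) ≤ M := Nat.cast_nonneg M
    linarith
  rw [max_eq_left (by linarith)] at h2
  have h4 : (((Ico m₀ (m₀ + M)).filter (fun m => m ≡ r [ZMOD P])).card : ℚ) =
      (⌈(((m₀ + M : ℤ) : ℚ) - r) / ((P : ℤ) : ℚ)⌉ : ℚ) - (⌈((m₀ : ℤ) - r : ℚ) / ((P : ℤ) : ℚ)⌉ : ℚ) := by
    exact_mod_cast congrArg (fun z : ℤ => (z : ℚ)) h2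
  have a2 := Int.ceil_lt_add_one ((((m₀ + M : ℤ) : ℚ) - r) / ((P : ℤ) : ℚ))
  have a3 := Int.le_ceil (((m₀ : ℤ) - r : ℚ) / ((P : ℤ) : ℚ))
  have h5 : (((m₀ + M : ℤ) : ℚ) - r) / ((P : ℤ) : ℚ) = ((m₀ : ℤ) - r : ℚ) / ((P : ℤ) : ℚ) + (M : ℚ) / P := by
    push_cast
    ring
  have h6 : (((Ico m₀ (m₀ + M)).filter (fun m => m ≡ r [ZMOD P])).card : ℚ) ≤ (M : ℚ) / P + 1 := by
    rw [h4]
    linarith
  have h7 := (Rat.cast_le (K := ℝ)).2 h6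
  push_cast at h7
  exact h7

/-- trivial bound for a fibre -/
theorem BCA_fib (m₀ g₀ z₀ : ℤ) (M G V q : ℕ) (α β γ c₀ : ℤ) (hq : 1 ≤ q) :
    ((fibG m₀ g₀ z₀ M G V 1 q 0 0 α β γ c₀).card : ℝ) ≤ (M : ℝ) * G * ((V : ℝ) / q + 1) := by
  have hmaps : ∀ t ∈ fibG m₀ g₀ z₀ M G V 1 q 0 0 α β γ c₀,
      (t.1, t.2.1) ∈ Ico m₀ (m₀ + M) ×ˢ Ico g₀ (g₀ + G) := by
    intro t ht
    unfold fibG at ht
    rw [Finset.mem_filter, Finset.mem_product, Finset.mem_product, Finset.mem_filter,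
      Finset.mem_filter] at ht
    rw [Finset.mem_product]
    exact ⟨ht.1.1.1, ht.1.2.1.1⟩
  rw [Finset.card_eq_sum_card_fiberwise hmaps]
  push_cast
  have hb : ∀ b ∈ Ico m₀ (m₀ + M) ×ˢ Ico g₀ (g₀ + G),
      (((fibG m₀ g₀ z₀ M G V 1 q 0 0 α β γ c₀).filter (fun t => (t.1, t.2.1) = b)).card : ℝ) ≤
        (V : ℝ) / q + 1 := by
    intro b _
    refine le_trans ?_ (BCA_cnt z₀ (α * b.1 ^ 2 + β * b.1 * b.2 + γ * b.2 ^ 2 + c₀) V q hq)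
    have : ((fibG m₀ g₀ z₀ M G V 1 q 0 0 α β γ c₀).filter (fun t => (t.1, t.2.1) = b)).card ≤
        ((Ico z₀ (z₀ + V)).filter
          (fun z => (q : ℤ) ∣ z - (α * b.1 ^ 2 + β * b.1 * b.2 + γ * b.2 ^ 2 + c₀))).card := by
      refine Finset.card_le_card_of_injOn (fun t => t.2.2) ?_ ?_
      · intro t ht
        have ht' := Finset.mem_filter.mp ht
        have h1 := ht'.1
        have h2 := ht'.2
        unfold fibG at h1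
        rw [Finset.mem_filter, Finset.mem_product, Finset.mem_product] at h1
        have e1 : t.1 = b.1 := congrArg Prod.fst h2
        have e2 : t.2.1 = b.2 := congrArg Prod.snd h2
        show t.2.2 ∈ (((Ico z₀ (z₀ + V)).filter
          (fun z => (q : ℤ) ∣ z - (α * b.1 ^ 2 + β * b.1 * b.2 + γ * b.2 ^ 2 + c₀))) : Finset ℤ)
        rw [Finset.mem_filter]
        refine ⟨h1.1.2.2, ?_⟩
        rw [← e1, ← e2]
        exact h1.2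
      · intro t ht t' ht' h
        have h1 := (Finset.mem_filter.mp ht).2
        have h2 := (Finset.mem_filter.mp ht').2
        have e1 : (t.1, t.2.1) = (t'.1, t'.2.1) := h1.trans h2.symm
        obtain ⟨e2, e3⟩ := Prod.mk.inj e1
        exact Prod.ext e2 (Prod.ext e3 h)
    exact_mod_cast this
  refine (Finset.sum_le_sum hb).trans ?_
  rw [Finset.sum_const, Finset.card_product, Int.card_Ico, Int.card_Ico, nsmul_eq_mul]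
  have e1 : (m₀ + M - m₀).toNat = M := by simp
  have e2 : (g₀ + G - g₀).toNat = G := by simp
  rw [e1, e2]
  push_cast
  exact le_rfl

/-- the residues, and the tuples of a block are in the fibres -/
theorem BCA_res (hRE1 : RE1_stmt) (hRE2 : RE2_stmt) (N₁ K₁ : ℕ) :
    ∃ (ρ : ℕ × ℕ → ℤ × ℤ × ℤ) (c₀ : ℕ × ℕ → ℤ),
      Resid (pairs N₁ K₁ 1) 1 1 1 (fun _ => 1) (fun _ => 1) ρ ∧
      ∀ (m₀ g₀ z₀ : ℤ) (M G V : ℕ) (F : Finset Tpl), (∀ t ∈ F, IsT t ∧ N₁ < 2 * t.1.1 ∧ t.1.1 ≤ N₁ ∧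
        K₁ < 2 * t.1.2 ∧ t.1.2 ≤ K₁ ∧ t.2.1 ∈ Ico m₀ (m₀ + M) ∧ t.2.2.1 ∈ Ico g₀ (g₀ + G) ∧
        t.2.2.2 ∈ Ico z₀ (z₀ + V)) →
      (F.card : ℝ) ≤ ∑ p ∈ pairs N₁ K₁ 1, ((fibG m₀ g₀ z₀ M G V 1 (p.1 ^ 3 * p.2 * 1) 0 0
        (ρ p).1 (ρ p).2.1 (ρ p).2.2 (c₀ p)).card : ℝ) := by
  have hex : ∀ p : ℕ × ℕ, ∃ (ρ : ℤ × ℤ × ℤ) (c₀ : ℤ), Nat.Coprime p.1 p.2 →
      (ResG p.1 p.2 ((1 : ℕ) : ℤ) ((1 : ℕ) : ℤ) ((1 : ℕ) : ℤ) ((1 : ℕ) : ℤ) ρ.1 ρ.2.1 ρ.2.2 ∧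
      ∀ m g z : ℤ, (((p.1 : ℤ) ^ 3 ∣ z * (p.2 : ℤ) ^ 4 + m * g * (p.2 : ℤ) ^ 2 - g ^ 2 * (p.1 : ℤ) ^ 2) →
        ((p.2 : ℤ) ∣ m ^ 2 - z * (p.1 : ℤ) ^ 2) →
        ((p.1 ^ 3 * p.2 * 1 : ℕ) : ℤ) ∣ z - (ρ.1 * m ^ 2 + ρ.2.1 * m * g + ρ.2.2 * g ^ 2 + c₀))) := by
    intro p
    by_cases hp : Nat.Coprime p.1 p.2
    · have hc : IsCoprime ((p.1 : ℤ) * ((1 : ℕ) : ℤ)) ((p.2 : ℤ) * ((1 : ℕ) : ℤ)) := by
        simpa using Nat.isCoprime_iff_coprime.mpr hp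
      have h1 : IsCoprime ((1 : ℕ) : ℤ) ((p.1 : ℤ) * ((1 : ℕ) : ℤ)) := by
        simpa using isCoprime_one_left
      have h2 : IsCoprime ((1 : ℕ) : ℤ) ((p.2 : ℤ) * ((1 : ℕ) : ℤ)) := by
        simpa using isCoprime_one_left
      obtain ⟨α, β, γ, hR⟩ := hRE1 p.1 p.2 ((1 : ℕ) : ℤ) ((1 : ℕ) : ℤ) ((1 : ℕ) : ℤ) ((1 : ℕ) : ℤ) hc h1 h2
      obtain ⟨c₀, hc₀⟩ := hRE2 p.1 p.2 ((1 : ℕ) : ℤ) ((1 : ℕ) : ℤ) ((1 : ℕ) : ℤ) ((1 : ℕ) : ℤ) α β γ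
        hc h1 h2 hR 0 0
      refine ⟨(α, β, γ), c₀, fun _ => ⟨hR, fun m g z hz1 hz2 => ?_⟩⟩
      have h3 := (hc₀ m g z).mpr ⟨?_, ?_⟩
      · push_cast at h3 ⊢
        simpa using h3
      · push_cast
        simpa using hz1
      · push_cast
        obtain ⟨w, hw⟩ := hz2
        exact ⟨-w, by linear_combination (-1 : ℤ) * hw⟩
    · exact ⟨0, 0, fun h => absurd h hp⟩
  choose ρ c₀ hρ using hex
  refine ⟨ρ, c₀, ?_, ?_⟩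
  · intro p hp
    have hp' := (Finset.mem_filter.mp hp).2
    refine ⟨rfl, by simpa using hp'.2.2.1, ?_⟩
    exact (hρ p hp'.2.2.1).1
  · intro m₀ g₀ z₀ M G V F hF
    have hmaps : ∀ t ∈ F, t.1 ∈ pairs N₁ K₁ 1 := by
      intro t ht
      obtain ⟨h1, h2, h3, h4, h5, _⟩ := hF t ht
      unfold pairs
      rw [Finset.mem_filter, Finset.mem_product, Finset.mem_Icc, Finset.mem_Icc]
      exact ⟨⟨⟨h1.n1, h3⟩, ⟨h1.k1, h5⟩⟩, h2, h4, h1.co, one_dvd _⟩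
    rw [Finset.card_eq_sum_card_fiberwise hmaps]
    push_cast
    refine Finset.sum_le_sum fun p hp => ?_
    have hcop := ((Finset.mem_filter.mp hp).2).2.2.1
    have : (F.filter (fun t => t.1 = p)).card ≤
        (fibG m₀ g₀ z₀ M G V 1 (p.1 ^ 3 * p.2 * 1) 0 0 (ρ p).1 (ρ p).2.1 (ρ p).2.2 (c₀ p)).card := by
      refine Finset.card_le_card_of_injOn (fun t => t.2) ?_ ?_
      · intro t ht
        have ht' := Finset.mem_filter.mp ht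
        obtain ⟨h1, h2, h3, h4, h5, h6, h7, h8⟩ := hF t ht'.1
        show t.2 ∈ fibG m₀ g₀ z₀ M G V 1 (p.1 ^ 3 * p.2 * 1) 0 0 (ρ p).1 (ρ p).2.1 (ρ p).2.2 (c₀ p)
        unfold fibG
        rw [Finset.mem_filter, Finset.mem_product, Finset.mem_product, Finset.mem_filter,
          Finset.mem_filter]
        refine ⟨⟨⟨h6, by simp⟩, ⟨h7, by simp⟩, h8⟩, ?_⟩
        have c1 := h1.c1
        have c2 := h1.c2
        rw [ht'.2] at c1 c2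
        exact (hρ p hcop).2 t.2.1 t.2.2.1 t.2.2.2 c1 c2
      · intro t ht t' ht' h
        have h1 := (Finset.mem_filter.mp ht).2
        have h2 := (Finset.mem_filter.mp ht').2
        exact Prod.ext (h1.trans h2.symm) h
    exact_mod_cast this

/-- sizes of a tuple -/
theorem BCA_siz (hSZ : SZ_stmt) (N x y : ℝ) (hN : 1 ≤ N) (hx : 1 ≤ x) (hy : 1 ≤ y) (t : Tpl)
    (ht : BCT N (x ^ 4) (y ^ 4) t) :
    (t.1.1 : ℝ) * √(N / 2) ≤ 2 * x ^ 4 * y ^ 2 ∧ (t.1.2 : ℝ) * √(N / 2) ≤ 2 * x ^ 2 * y ^ 4 ∧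
    |(t.2.1 : ℝ)| ≤ x ^ 2 * t.1.1 + 10 / 7 * (x ^ 4 / y ^ 2) * t.1.2 ∧
    |(t.2.2.1 : ℝ)| ≤ 10 / 7 * (y ^ 4 / x ^ 2) * t.1.1 + y ^ 2 * t.1.2 := by
  have hx0 : 0 < x := by linarith
  have hy0 : 0 < y := by linarith
  have hZ0 : (0 : ℝ) < t.2.2.2 := lt_trans (by positivity) ht.z1
  have hL0 : (0 : ℝ) < lam t := lt_trans (by positivity) ht.l1
  have hD : N / 2 < -(dis t : ℝ) := ht.d1
  have hdneg : (dis t : ℝ) < 0 := by linarith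
  obtain ⟨s1, s2, s3, s4⟩ := hSZ t ht.tt (by exact_mod_cast hZ0) (by exact_mod_cast hL0)
    (by exact_mod_cast hdneg)
  have hsD : √(N / 2) ≤ √(-(dis t : ℝ)) := Real.sqrt_le_sqrt hD.le
  have hsZ : √(t.2.2.2 : ℝ) ≤ x ^ 2 := by
    apply Real.sqrt_le_iff.mpr
    refine ⟨by positivity, ?_⟩
    have := ht.z2
    calc (t.2.2.2 : ℝ) ≤ x ^ 4 := this
      _ = (x ^ 2) ^ 2 := by ring
  have hsL : √(lam t : ℝ) ≤ y ^ 2 := by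
    apply Real.sqrt_le_iff.mpr
    refine ⟨by positivity, ?_⟩
    have := ht.l2
    calc (lam t : ℝ) ≤ y ^ 4 := this
      _ = (y ^ 2) ^ 2 := by ring
  have hsZ' : 7 / 10 * x ^ 2 ≤ √(t.2.2.2 : ℝ) := by
    apply Real.le_sqrt_of_sq_le
    have := ht.z1
    have h4 : 0 < x ^ 4 := by positivity
    calc (7 / 10 * x ^ 2) ^ 2 = 49 / 100 * x ^ 4 := by ring
      _ ≤ (t.2.2.2 : ℝ) := by linarith
  have hsL' : 7 / 10 * y ^ 2 ≤ √(lam t : ℝ) := by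
    apply Real.le_sqrt_of_sq_le
    have := ht.l1
    have h4 : 0 < y ^ 4 := by positivity
    calc (7 / 10 * y ^ 2) ^ 2 = 49 / 100 * y ^ 4 := by ring
      _ ≤ (lam t : ℝ) := by linarith
  have hz2 : (t.2.2.2 : ℝ) ≤ x ^ 4 := ht.z2
  have hl2 : (lam t : ℝ) ≤ y ^ 4 := ht.l2
  have hsZ0 : 0 < √(t.2.2.2 : ℝ) := Real.sqrt_pos.mpr hZ0
  have hsL0 : 0 < √(lam t : ℝ) := Real.sqrt_pos.mpr hL0
  refine ⟨?_, ?_, ?_, ?_⟩
  · calc (t.1.1 : ℝ) * √(N / 2) ≤ t.1.1 * √(-(dis t : ℝ)) := by gcongr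
      _ ≤ 2 * t.2.2.2 * √(lam t : ℝ) := s1
      _ ≤ 2 * x ^ 4 * y ^ 2 := by gcongr
  · calc (t.1.2 : ℝ) * √(N / 2) ≤ t.1.2 * √(-(dis t : ℝ)) := by gcongr
      _ ≤ 2 * √(t.2.2.2 : ℝ) * lam t := s2
      _ ≤ 2 * x ^ 2 * y ^ 4 := by gcongr
  · refine s3.trans ?_
    have h1 : (t.2.2.2 : ℝ) / √(lam t : ℝ) ≤ 10 / 7 * (x ^ 4 / y ^ 2) := by
      calc (t.2.2.2 : ℝ) / √(lam t : ℝ) ≤ x ^ 4 / (7 / 10 * y ^ 2) := by gcongr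
        _ = 10 / 7 * (x ^ 4 / y ^ 2) := by field_simp
    gcongr
  · refine s4.trans ?_
    have h1 : (lam t : ℝ) / √(t.2.2.2 : ℝ) ≤ 10 / 7 * (y ^ 4 / x ^ 2) := by
      calc (lam t : ℝ) / √(t.2.2.2 : ℝ) ≤ y ^ 4 / (7 / 10 * x ^ 2) := by gcongr
        _ = 10 / 7 * (y ^ 4 / x ^ 2) := by field_simp
    gcongr

/-- the main bound contains `x⁴ y⁴` -/
theorem BCA_SB (x y S : ℝ) (hx : 0 ≤ x) (hy : 0 ≤ y) (hS : 0 ≤ S) : x ^ 4 * y ^ 4 ≤ SB x y S := by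
  unfold SB
  have : 0 ≤ x ^ 6 + (y ^ 6 + x ^ 5 * y) * S + (y ^ 6 * x + x ^ 6 * y + x ^ 7) * S ^ 2 +
    (x ^ 6 * y ^ 2 + x ^ 7 * y) * S ^ 3 := by positivity
  linarith

/-- the sizes of a block -/
theorem BCA_blk (hSZ : SZ_stmt) (N x y S : ℝ) (N₁ K₁ : ℕ) (hN : 1 ≤ N) (hx : 1 ≤ x) (hy : 1 ≤ y)
    (hS0 : 0 < S) (hxy : x ^ 2 * y ^ 2 = S * √N) (hkn : x ^ 2 * K₁ ≤ 2 * y ^ 2 * N₁) (t : Tpl)
    (ht : BCT N (x ^ 4) (y ^ 4) t) (h1 : N₁ < 2 * t.1.1) (h2 : t.1.1 ≤ N₁) (h3 : K₁ < 2 * t.1.2)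
    (h4 : t.1.2 ≤ K₁) :
    (N₁ : ℝ) ≤ 8 * x ^ 2 * S ∧ (K₁ : ℝ) ≤ 8 * y ^ 2 * S ∧
    |(t.2.1 : ℝ)| ≤ 4 * (x ^ 2 * N₁) ∧ |(t.2.2.1 : ℝ)| ≤ 4 * (y ^ 4 * N₁ / x ^ 2) := by
  obtain ⟨s1, s2, s3, s4⟩ := BCA_siz hSZ N x y hN hx hy t ht
  have hx0 : 0 < x := by linarith
  have hy0 : 0 < y := by linarith
  have hN0 : 0 < √N := Real.sqrt_pos.mpr (by linarith)
  have hsq : 7 / 10 * √N ≤ √(N / 2) := by
    apply Real.le_sqrt_of_sq_le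
    rw [mul_pow, Real.sq_sqrt (by linarith)]
    linarith
  have h1' : (N₁ : ℝ) ≤ 2 * t.1.1 := by exact_mod_cast h1.le
  have h2' : (t.1.1 : ℝ) ≤ N₁ := by exact_mod_cast h2
  have h3' : (K₁ : ℝ) ≤ 2 * t.1.2 := by exact_mod_cast h3.le
  have h4' : (t.1.2 : ℝ) ≤ K₁ := by exact_mod_cast h4
  refine ⟨?_, ?_, ?_, ?_⟩
  · have e1 : (N₁ : ℝ) * (7 / 10 * √N) ≤ 4 * x ^ 2 * S * √N := by
      calc (N₁ : ℝ) * (7 / 10 * √N) ≤ (2 * t.1.1) * √(N / 2) := by gcongr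
        _ = 2 * (t.1.1 * √(N / 2)) := by ring
        _ ≤ 2 * (2 * x ^ 4 * y ^ 2) := by gcongr
        _ = 4 * x ^ 2 * (x ^ 2 * y ^ 2) := by ring
        _ = 4 * x ^ 2 * S * √N := by rw [hxy]; ring
    have e2 : (N₁ : ℝ) * (7 / 10) ≤ 4 * x ^ 2 * S := by
      refine le_of_mul_le_mul_right ?_ hN0
      calc (N₁ : ℝ) * (7 / 10) * √N = (N₁ : ℝ) * (7 / 10 * √N) := by ring
        _ ≤ _ := e1
    have e3 : 0 ≤ x ^ 2 * S := by positivity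
    nlinarith
  · have e1 : (K₁ : ℝ) * (7 / 10 * √N) ≤ 4 * y ^ 2 * S * √N := by
      calc (K₁ : ℝ) * (7 / 10 * √N) ≤ (2 * t.1.2) * √(N / 2) := by gcongr
        _ = 2 * (t.1.2 * √(N / 2)) := by ring
        _ ≤ 2 * (2 * x ^ 2 * y ^ 4) := by gcongr
        _ = 4 * y ^ 2 * (x ^ 2 * y ^ 2) := by ring
        _ = 4 * y ^ 2 * S * √N := by rw [hxy]; ring
    have e2 : (K₁ : ℝ) * (7 / 10) ≤ 4 * y ^ 2 * S := by
      refine le_of_mul_le_mul_right ?_ hN0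
      calc (K₁ : ℝ) * (7 / 10) * √N = (K₁ : ℝ) * (7 / 10 * √N) := by ring
        _ ≤ _ := e1
    have e3 : 0 ≤ y ^ 2 * S := by positivity
    nlinarith
  · refine s3.trans ?_
    have e1 : x ^ 4 / y ^ 2 * t.1.2 ≤ 2 * (x ^ 2 * N₁) := by
      calc x ^ 4 / y ^ 2 * t.1.2 ≤ x ^ 4 / y ^ 2 * K₁ := by gcongr
        _ = x ^ 2 / y ^ 2 * (x ^ 2 * K₁) := by ring
        _ ≤ x ^ 2 / y ^ 2 * (2 * y ^ 2 * N₁) := by gcongr
        _ = 2 * (x ^ 2 * N₁) := by field_simp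
    have e2 : x ^ 2 * t.1.1 ≤ x ^ 2 * N₁ := by gcongr
    have e3 : 0 ≤ x ^ 2 * (N₁ : ℝ) := by positivity
    calc x ^ 2 * t.1.1 + 10 / 7 * (x ^ 4 / y ^ 2) * t.1.2
        = x ^ 2 * t.1.1 + 10 / 7 * (x ^ 4 / y ^ 2 * t.1.2) := by ring
      _ ≤ 4 * (x ^ 2 * N₁) := by linarith
  · refine s4.trans ?_
    have e1 : y ^ 2 * t.1.2 ≤ 2 * (y ^ 4 * N₁ / x ^ 2) := by
      calc y ^ 2 * (t.1.2 : ℝ) ≤ y ^ 2 * K₁ := by gcongr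
        _ = y ^ 2 / x ^ 2 * (x ^ 2 * K₁) := by field_simp
        _ ≤ y ^ 2 / x ^ 2 * (2 * y ^ 2 * N₁) := by gcongr
        _ = 2 * (y ^ 4 * N₁ / x ^ 2) := by ring
    have e2 : y ^ 4 / x ^ 2 * t.1.1 ≤ y ^ 4 * N₁ / x ^ 2 := by
      calc y ^ 4 / x ^ 2 * (t.1.1 : ℝ) ≤ y ^ 4 / x ^ 2 * N₁ := by gcongr
        _ = y ^ 4 * N₁ / x ^ 2 := by ring
    have e3 : 0 ≤ y ^ 4 * (N₁ : ℝ) / x ^ 2 := by positivity
    calc 10 / 7 * (y ^ 4 / x ^ 2) * t.1.1 + y ^ 2 * t.1.2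
        = 10 / 7 * (y ^ 4 / x ^ 2 * t.1.1) + y ^ 2 * t.1.2 := by ring
      _ ≤ 4 * (y ^ 4 * N₁ / x ^ 2) := by linarith

/-- an integer interval around `0` -/
theorem BCA_int (A : ℝ) (m : ℤ) (h : |(m : ℝ)| ≤ A) :
    m ∈ Ico (-(⌈A⌉₊ : ℤ)) (-(⌈A⌉₊ : ℤ) + ((2 * ⌈A⌉₊ + 1 : ℕ) : ℤ)) := by
  rw [Finset.mem_Ico]
  have h1 := abs_le.mp h
  have h2 : A ≤ (⌈A⌉₊ : ℝ) := Nat.le_ceil A
  have h3 : -((⌈A⌉₊ : ℤ) : ℝ) ≤ (m : ℝ) := by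
    push_cast
    linarith [h1.1]
  have h4 : (m : ℝ) ≤ ((⌈A⌉₊ : ℤ) : ℝ) := by
    push_cast
    linarith [h1.2]
  constructor
  · exact_mod_cast h3
  · have : m ≤ (⌈A⌉₊ : ℤ) := by exact_mod_cast h4
    push_cast
    linarith

/-- number of pairs -/
theorem BCA_pc (N K : ℕ) : ((pairs N K 1).card : ℝ) ≤ (N : ℝ) * K := by
  have : (pairs N K 1).card ≤ N * K := by
    refine (Finset.card_filter_le _ _).trans ?_
    rw [Finset.card_product, Nat.card_Icc, Nat.card_Icc]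
    simp
  exact_mod_cast this

/-- the power of `T` -/
theorem BCA_T (C₀ N ε : ℝ) (hC : 1 ≤ C₀) (hN : 1 ≤ N) (hε : 0 < ε) :
    ((⌈C₀ * N ^ 2⌉₊ : ℕ) : ℝ) ^ (ε / 2) ≤ (2 * C₀) ^ (ε / 2) * N ^ ε := by
  have hN2 : 1 ≤ N ^ 2 := one_le_pow₀ hN
  have h1 : 1 ≤ C₀ * N ^ 2 := by nlinarith
  have h2 : ((⌈C₀ * N ^ 2⌉₊ : ℕ) : ℝ) ≤ 2 * C₀ * N ^ 2 := by
    have := (Nat.ceil_lt_add_one (by linarith : 0 ≤ C₀ * N ^ 2)).le
    linarith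
  have h3 : (N ^ 2) ^ (ε / 2) = N ^ ε := by
    rw [← Real.rpow_natCast_mul (by linarith)]
    congr 1
    push_cast
    ring
  calc ((⌈C₀ * N ^ 2⌉₊ : ℕ) : ℝ) ^ (ε / 2) ≤ (2 * C₀ * N ^ 2) ^ (ε / 2) :=
        Real.rpow_le_rpow (Nat.cast_nonneg _) h2 (by linarith)
    _ = (2 * C₀) ^ (ε / 2) * (N ^ 2) ^ (ε / 2) := Real.mul_rpow (by linarith) (by linarith)
    _ = (2 * C₀) ^ (ε / 2) * N ^ ε := by rw [h3]

/-- **BCA** -/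
theorem BCA (hBXA : BXA_stmt) (hBXB : BXB_stmt) (hBLU : BLU_stmt) (hRE1 : RE1_stmt) (hRE2 : RE2_stmt) (hTR : TR_stmt) (hSZ : SZ_stmt) : BCA_stmt := by
  intro ε hε
  have _ := hTR
  obtain ⟨CA, hCA1, hA⟩ := hBXA
  obtain ⟨CB, hCB1, hB⟩ := hBXB
  obtain ⟨CL, hCL1, hL⟩ := hBLU (ε / 2) (by positivity)
  obtain ⟨C₀, hC₀⟩ : ∃ C₀ : ℝ, C₀ = 5000 + CA + CB := ⟨_, rfl⟩
  have hC₀1 : 5000 ≤ C₀ := by linarith
  have hp0 : 0 ≤ (2 * C₀) ^ (ε / 2) := Real.rpow_nonneg (by linarith) _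
  refine ⟨400000 + CL * (2 * C₀) ^ (ε / 2) * (CA + CB), ?_, ?_⟩
  · have : 0 ≤ CL * (2 * C₀) ^ (ε / 2) * (CA + CB) := by positivity
    linarith
  intro N Q₁ Q₂ N₁ K₁ hN hQ₁ hQ₂ hQQ hq8 hN₁ hK₁ hkn F hF
  have hQ₁0 : 0 < Q₁ := by linarith
  have hQ₂0 : 0 < Q₂ := by linarith
  have hN0 : 0 < N := by linarith
  obtain ⟨x, hx⟩ : ∃ x, x = Q₁ ^ (1 / 4 : ℝ) := ⟨_, rfl⟩
  obtain ⟨y, hy⟩ : ∃ y, y = Q₂ ^ (1 / 4 : ℝ) := ⟨_, rfl⟩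
  obtain ⟨S, hS⟩ : ∃ S, S = √(Q₁ * Q₂ / N) := ⟨_, rfl⟩
  rw [← hx, ← hy, ← hS]
  have hx1 : 1 ≤ x := by rw [hx]; exact Real.one_le_rpow hQ₁ (by norm_num)
  have hy1 : 1 ≤ y := by rw [hy]; exact Real.one_le_rpow hQ₂ (by norm_num)
  have hx4 : x ^ 4 = Q₁ := by
    rw [hx, ← Real.rpow_natCast, ← Real.rpow_mul hQ₁0.le]
    norm_num
  have hy4 : y ^ 4 = Q₂ := by
    rw [hy, ← Real.rpow_natCast, ← Real.rpow_mul hQ₂0.le]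
    norm_num
  have hx0 : 0 < x := by linarith
  have hy0 : 0 < y := by linarith
  have hS0 : 0 < S := by
    rw [hS]
    apply Real.sqrt_pos.mpr
    positivity
  have hS1 : S ≤ 1 := by
    rw [hS]
    apply Real.sqrt_le_iff.mpr
    refine ⟨zero_le_one, ?_⟩
    rw [div_le_iff₀ hN0]
    linarith
  have hxy : x ^ 2 * y ^ 2 = S * √N := by
    have e1 : S * √N = √(Q₁ * Q₂ / N * N) := by rw [hS, Real.sqrt_mul (by positivity)]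
    rw [e1, div_mul_cancel₀ _ hN0.ne', ← hx4, ← hy4,
      show x ^ 4 * y ^ 4 = (x ^ 2 * y ^ 2) ^ 2 by ring, Real.sqrt_sq (by positivity)]
  clear hx hy hS
  subst hx4
  subst hy4
  have hsx : √(x ^ 4) = x ^ 2 := by
    rw [show x ^ 4 = (x ^ 2) ^ 2 by ring, Real.sqrt_sq (by positivity)]
  rw [hsx] at hq8
  have hN₁R : (1 : ℝ) ≤ N₁ := by exact_mod_cast hN₁
  have hK₁R : (1 : ℝ) ≤ K₁ := by exact_mod_cast hK₁
  have hkn' : x ^ 2 * K₁ ≤ 2 * y ^ 2 * N₁ := by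
    refine (pow_le_pow_iff_left₀ (by positivity) (by positivity) (two_ne_zero)).mp ?_
    calc (x ^ 2 * (K₁ : ℝ)) ^ 2 = x ^ 4 * (K₁ : ℝ) ^ 2 := by ring
      _ ≤ 4 * y ^ 4 * (N₁ : ℝ) ^ 2 := hkn
      _ = (2 * y ^ 2 * N₁) ^ 2 := by ring
  have hNε : 1 ≤ N ^ ε := Real.one_le_rpow hN hε.le
  have hSB := BCA_SB x y S hx0.le hy0.le hS0.le
  have hSB0 : 0 ≤ SB x y S := le_trans (by positivity) hSB
  -- empty case
  rcases F.eq_empty_or_nonempty with hFe | ⟨t₀, ht₀⟩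
  · rw [hFe]
    simp only [Finset.card_empty, Nat.cast_zero]
    positivity
  have hblk := fun t (ht : t ∈ F) => BCA_blk hSZ N x y S N₁ K₁ hN hx1 hy1 hS0 hxy hkn' t
    (hF t ht).1 (hF t ht).2.1 (hF t ht).2.2.1 (hF t ht).2.2.2.1 (hF t ht).2.2.2.2
  obtain ⟨hn8, hk8, _, _⟩ := hblk t₀ ht₀
  -- the box
  have hx2 : 1 ≤ x ^ 2 := one_le_pow₀ hx1
  have hy2 : 1 ≤ y ^ 2 := one_le_pow₀ hy1
  have hxN : 1 ≤ x ^ 2 * (N₁ : ℝ) := one_le_mul_of_one_le_of_one_le hx2 hN₁R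
  obtain ⟨M, hM⟩ : ∃ M : ℕ, M = 2 * ⌈4 * (x ^ 2 * (N₁ : ℝ))⌉₊ + 1 := ⟨_, rfl⟩
  obtain ⟨G, hG⟩ : ∃ G : ℕ, G = 2 * ⌈4 * (y ^ 4 * (N₁ : ℝ) / x ^ 2)⌉₊ + 1 := ⟨_, rfl⟩
  obtain ⟨V, hV⟩ : ∃ V : ℕ, V = ⌊x ^ 4⌋₊ := ⟨_, rfl⟩
  have hMlo : x ^ 2 * (N₁ : ℝ) ≤ M := by
    have := Nat.le_ceil (4 * (x ^ 2 * (N₁ : ℝ)))
    rw [hM]
    push_cast
    linarith
  have hMhi : (M : ℝ) ≤ 11 * (x ^ 2 * N₁) := by
    have := Nat.ceil_lt_add_one (by positivity : 0 ≤ 4 * (x ^ 2 * (N₁ : ℝ)))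
    rw [hM]
    push_cast
    linarith
  have hGlo : y ^ 4 * (N₁ : ℝ) ≤ x ^ 2 * G := by
    have h1 := Nat.le_ceil (4 * (y ^ 4 * (N₁ : ℝ) / x ^ 2))
    have h2 : y ^ 4 * (N₁ : ℝ) / x ^ 2 ≤ G := by
      have h3 : 0 ≤ y ^ 4 * (N₁ : ℝ) / x ^ 2 := by positivity
      rw [hG]
      push_cast
      linarith
    rw [div_le_iff₀ (by positivity)] at h2
    linarith
  have hGhi : x ^ 2 * (G : ℝ) ≤ 32 * (y ^ 4 * N₁) := by
    have h1 := (Nat.ceil_lt_add_one (by positivity : 0 ≤ 4 * (y ^ 4 * (N₁ : ℝ) / x ^ 2))).le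
    have h2 : (G : ℝ) ≤ 8 * (y ^ 4 * (N₁ : ℝ) / x ^ 2) + 3 := by
      rw [hG]
      push_cast
      linarith
    have h3 : x ^ 2 ≤ 8 * (y ^ 4 * N₁) := by
      have h4 : y ^ 4 ≤ y ^ 4 * N₁ := le_mul_of_one_le_right (by positivity) hN₁R
      linarith
    calc x ^ 2 * (G : ℝ) ≤ x ^ 2 * (8 * (y ^ 4 * (N₁ : ℝ) / x ^ 2) + 3) := by gcongr
      _ = 8 * (y ^ 4 * N₁) + 3 * x ^ 2 := by field_simp
      _ ≤ 32 * (y ^ 4 * N₁) := by linarith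
  have hx41 : 1 ≤ x ^ 4 := one_le_pow₀ hx1
  have hy41 : 1 ≤ y ^ 4 := one_le_pow₀ hy1
  have hV1 : 1 ≤ V := by
    rw [hV]
    exact Nat.le_floor (by exact_mod_cast hx41)
  have hV1R : (1 : ℝ) ≤ V := by exact_mod_cast hV1
  have hVhi : (V : ℝ) ≤ x ^ 4 := by
    rw [hV]
    exact Nat.floor_le (by positivity)
  have hVlo : x ^ 4 ≤ 2 * V := by
    have := Nat.lt_floor_add_one (x ^ 4)
    rw [← hV] at this
    linarith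
  have hM1 : 1 ≤ M := by omega
  have hG1 : 1 ≤ G := by omega
  have hM1R : (1 : ℝ) ≤ M := by exact_mod_cast hM1
  have hG1R : (1 : ℝ) ≤ G := by exact_mod_cast hG1
  have hMG : (M : ℝ) * G ≤ 352 * (y ^ 4 * (N₁ : ℝ) ^ 2) := by
    have h1 : (M : ℝ) * (x ^ 2 * G) ≤ 11 * (x ^ 2 * N₁) * (32 * (y ^ 4 * N₁)) := by gcongr
    have h2 : x ^ 2 * ((M : ℝ) * G) ≤ x ^ 2 * (352 * (y ^ 4 * (N₁ : ℝ) ^ 2)) := by
      calc x ^ 2 * ((M : ℝ) * G) = (M : ℝ) * (x ^ 2 * G) := by ring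
        _ ≤ _ := h1
        _ = _ := by ring
    exact le_of_mul_le_mul_left h2 (by positivity)
  obtain ⟨ρ, c₀, hRes, hcount⟩ := BCA_res hRE1 hRE2 N₁ K₁
  have hcard := hcount (-(⌈4 * (x ^ 2 * (N₁ : ℝ))⌉₊ : ℤ)) (-(⌈4 * (y ^ 4 * (N₁ : ℝ) / x ^ 2)⌉₊ : ℤ)) 1
    M G V F (by
      intro t ht
      obtain ⟨b1, b2, b3, b4, b5⟩ := hF t ht
      obtain ⟨_, _, c3, c4⟩ := hblk t ht
      refine ⟨b1.tt, b2, b3, b4, b5, ?_, ?_, ?_⟩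
      · rw [hM]
        exact BCA_int _ _ c3
      · rw [hG]
        exact BCA_int _ _ c4
      · have hz0 : (0 : ℝ) < t.2.2.2 := lt_trans (by positivity) b1.z1
        have hz1 : 0 < t.2.2.2 := by exact_mod_cast hz0
        obtain ⟨z, hz⟩ := Int.eq_ofNat_of_zero_le hz1.le
        rw [hz] at hz1 ⊢
        have hz2 := b1.z2
        rw [hz] at hz2
        have hz3 : z ≤ V := by
          rw [hV]
          apply Nat.le_floor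
          exact_mod_cast hz2
        rw [Finset.mem_Ico]
        constructor
        · omega
        · omega)
  have hWc := BCA_pc N₁ K₁
  obtain ⟨H, hH⟩ : ∃ H : ℕ, H = N₁ ^ 3 * K₁ / (64 * V) := ⟨_, rfl⟩
  have hH64 : 64 * V * H ≤ N₁ ^ 3 * K₁ := by
    rw [hH]
    exact Nat.mul_div_le _ _
  have hHlt : N₁ ^ 3 * K₁ < 64 * V * (H + 1) := by
    rw [hH]
    exact Nat.lt_mul_div_succ _ (by omega)
  have hH64R : 64 * (V : ℝ) * H ≤ (N₁ : ℝ) ^ 3 * K₁ := by exact_mod_cast hH64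
  have hHltR : (N₁ : ℝ) ^ 3 * K₁ ≤ 64 * V * (H + 1) := by exact_mod_cast hHlt.le
  by_cases hH1 : 1 ≤ H
  · have hH1R : (1 : ℝ) ≤ H := by exact_mod_cast hH1
    have hHu : (N₁ : ℝ) ^ 3 * K₁ ≤ 128 * H * x ^ 4 := by
      calc (N₁ : ℝ) ^ 3 * K₁ ≤ 64 * V * (H + 1) := hHltR
        _ ≤ 64 * V * (2 * H) := by gcongr; linarith
        _ = 128 * H * V := by ring
        _ ≤ 128 * H * x ^ 4 := by gcongr
    have hbx : BXH x y S N₁ K₁ M G H := by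
      refine ⟨hx1, hy1, hS0, hS1, hN₁, hK₁, hH1, hn8, hk8, hkn', hMlo, ?_, hGlo, ?_, ?_, ?_⟩
      · refine hMhi.trans ?_
        have : 0 ≤ x ^ 2 * (N₁ : ℝ) := by positivity
        linarith
      · refine hGhi.trans ?_
        have : 0 ≤ y ^ 4 * (N₁ : ℝ) := by positivity
        linarith
      · refine hHu.trans ?_
        have : 0 ≤ (H : ℝ) * x ^ 4 := by positivity
        linarith
      · calc 32 * (H : ℝ) * x ^ 4 ≤ 32 * H * (2 * V) := by gcongr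
          _ = 64 * V * H := by ring
          _ ≤ _ := hH64R
    obtain ⟨a, ha1, ha2, ha3⟩ : ∃ a : Fin 4 → ℕ, Sides N₁ K₁ M G H 1 1 1 a ∧
        (∀ i, (a i : ℝ) ≤ (CA + CB) * (x * y) ^ 8) ∧
        √((M : ℝ) * G) / H * nB N₁ K₁ H 1 1 1 1 a ≤ (CA + CB) * SB x y S := by
      have hp8 : 0 ≤ (x * y) ^ 8 := by positivity
      rcases le_total (x ^ 2) ((N₁ : ℝ) * K₁) with h | h
      · obtain ⟨a, h1, h2, h3⟩ := hA x y S N₁ K₁ M G H hbx h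
        refine ⟨a, h1, fun i => (h2 i).trans ?_, h3.trans ?_⟩
        · exact mul_le_mul_of_nonneg_right (by linarith) hp8
        · exact mul_le_mul_of_nonneg_right (by linarith) hSB0
      · obtain ⟨a, h1, h2, h3⟩ := hB x y S N₁ K₁ M G H hbx h
        refine ⟨a, h1, fun i => (h2 i).trans ?_, h3.trans ?_⟩
        · exact mul_le_mul_of_nonneg_right (by linarith) hp8
        · exact mul_le_mul_of_nonneg_right (by linarith) hSB0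
    -- sizes up to T
    have hN2 : N ≤ N ^ 2 := by
      rw [sq]
      exact le_mul_of_one_le_right hN0.le hN
    have hN21 : 1 ≤ N ^ 2 := one_le_pow₀ hN
    have hxN4 : x ^ 4 ≤ N := le_trans (le_mul_of_one_le_right (by positivity) hy41) hQQ
    have hyN4 : y ^ 4 ≤ N := le_trans (le_mul_of_one_le_left (by positivity) hx41) hQQ
    have hx24 : x ^ 2 ≤ x ^ 4 := pow_le_pow_right₀ hx1 (by norm_num)
    have hy24 : y ^ 2 ≤ y ^ 4 := pow_le_pow_right₀ hy1 (by norm_num)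
    have hTle : ∀ u : ℕ, (u : ℝ) ≤ C₀ * N ^ 2 → u ≤ ⌈C₀ * N ^ 2⌉₊ := by
      intro u hu
      exact_mod_cast hu.trans (Nat.le_ceil _)
    have hCN : ∀ c : ℝ, c ≤ 5000 → 0 ≤ c → c * N ≤ C₀ * N ^ 2 := by
      intro c hc hc0
      have h1 : c * N ≤ 5000 * N := mul_le_mul_of_nonneg_right hc hN0.le
      have h2 : 5000 * N ≤ C₀ * N ^ 2 := mul_le_mul hC₀1 hN2 hN0.le (by linarith)
      linarith
    have hn8' : (N₁ : ℝ) ≤ 8 * x ^ 2 := by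
      refine hn8.trans ?_
      exact mul_le_of_le_one_right (by positivity) hS1
    have hk8' : (K₁ : ℝ) ≤ 8 * y ^ 2 := by
      refine hk8.trans ?_
      exact mul_le_of_le_one_right (by positivity) hS1
    have T1 : N₁ ≤ ⌈C₀ * N ^ 2⌉₊ := hTle _ (by
      have := hCN 8 (by norm_num) (by norm_num)
      linarith)
    have T2 : K₁ ≤ ⌈C₀ * N ^ 2⌉₊ := hTle _ (by
      have := hCN 8 (by norm_num) (by norm_num)
      linarith)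
    have T3 : M ≤ ⌈C₀ * N ^ 2⌉₊ := hTle _ (by
      have h1 := hCN 88 (by norm_num) (by norm_num)
      have h2 : x ^ 2 * (N₁ : ℝ) ≤ x ^ 2 * (8 * x ^ 2) := by gcongr
      have h3 : x ^ 2 * (8 * x ^ 2) = 8 * x ^ 4 := by ring
      linarith)
    have T4 : G ≤ ⌈C₀ * N ^ 2⌉₊ := hTle _ (by
      have h1 := hCN 256 (by norm_num) (by norm_num)
      have h2 : x ^ 2 * (G : ℝ) ≤ x ^ 2 * (256 * y ^ 4) := by
        refine hGhi.trans ?_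
        calc 32 * (y ^ 4 * (N₁ : ℝ)) ≤ 32 * (y ^ 4 * (8 * x ^ 2)) := by gcongr
          _ = x ^ 2 * (256 * y ^ 4) := by ring
      have h3 : (G : ℝ) ≤ 256 * y ^ 4 := le_of_mul_le_mul_left h2 (by positivity)
      linarith)
    have T5 : H ≤ ⌈C₀ * N ^ 2⌉₊ := hTle _ (by
      have h1 : 32 * (H : ℝ) * x ^ 4 ≤ (N₁ : ℝ) ^ 3 * K₁ := hbx.H2
      have h2 : (N₁ : ℝ) ^ 3 * K₁ ≤ (8 * x ^ 2) ^ 3 * (8 * y ^ 2) := by gcongr
      have h3 : x ^ 4 * (32 * (H : ℝ)) ≤ x ^ 4 * (4096 * (x ^ 2 * y ^ 2)) := by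
        calc x ^ 4 * (32 * (H : ℝ)) = 32 * (H : ℝ) * x ^ 4 := by ring
          _ ≤ (8 * x ^ 2) ^ 3 * (8 * y ^ 2) := h1.trans h2
          _ = x ^ 4 * (4096 * (x ^ 2 * y ^ 2)) := by ring
      have h4 : 32 * (H : ℝ) ≤ 4096 * (x ^ 2 * y ^ 2) := le_of_mul_le_mul_left h3 (by positivity)
      have h5 : x ^ 2 * y ^ 2 ≤ x ^ 4 * y ^ 4 := by gcongr
      have h6 := hCN 128 (by norm_num) (by norm_num)
      linarith)
    have T6 : ∀ i, a i ≤ ⌈C₀ * N ^ 2⌉₊ := fun i => hTle _ (by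
      have h1 : (x * y) ^ 8 ≤ N ^ 2 := by
        calc (x * y) ^ 8 = (x ^ 4 * y ^ 4) ^ 2 := by ring
          _ ≤ N ^ 2 := by gcongr
      calc (a i : ℝ) ≤ (CA + CB) * (x * y) ^ 8 := ha2 i
        _ ≤ C₀ * N ^ 2 := by
          have h2 : (CA + CB) * (x * y) ^ 8 ≤ (CA + CB) * N ^ 2 := by gcongr
          have h3 : (CA + CB) * N ^ 2 ≤ C₀ * N ^ 2 := by
            apply mul_le_mul_of_nonneg_right _ (by positivity)
            linarith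
          linarith)
    have T7 : 1 ≤ ⌈C₀ * N ^ 2⌉₊ := le_trans hN₁ T1
    have hb := hL ⌈C₀ * N ^ 2⌉₊ N₁ K₁ M G V 1 1 1 1 1 H a (pairs N₁ K₁ 1) (fun _ => 1) (fun _ => 1) ρ
      (fun _ => (-(⌈4 * (x ^ 2 * (N₁ : ℝ))⌉₊ : ℤ))) (fun _ => (-(⌈4 * (y ^ 4 * (N₁ : ℝ) / x ^ 2)⌉₊ : ℤ)))
      (fun _ => 1) (fun _ => 0) (fun _ => 0) c₀ hN₁ T1 hK₁ T2 hM1 T3 hG1 T4 hH1 T5 hV1 le_rfl le_rfl
      le_rfl le_rfl (by simpa using T7) le_rfl T7 T6 squarefree_one ha1 (Finset.Subset.refl _) hRes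
      (by
        rw [mul_one]
        calc 64 * H * V = 64 * V * H := by ring
          _ ≤ _ := hH64)
    refine hcard.trans (hb.trans ?_)
    have hmain : 2 / (H : ℝ) * (((M : ℝ) / ((1 : ℕ) : ℝ) + 1) * ((G : ℝ) / ((1 : ℕ) : ℝ) + 1)) *
        ((pairs N₁ K₁ 1).card : ℝ) ≤ 400000 * (N ^ ε * SB x y S) := by
      have h1 : ((M : ℝ) / ((1 : ℕ) : ℝ) + 1) ≤ 2 * M := by
        rw [Nat.cast_one, div_one]
        linarith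
      have h2 : ((G : ℝ) / ((1 : ℕ) : ℝ) + 1) ≤ 2 * G := by
        rw [Nat.cast_one, div_one]
        linarith
      calc 2 / (H : ℝ) * (((M : ℝ) / ((1 : ℕ) : ℝ) + 1) * ((G : ℝ) / ((1 : ℕ) : ℝ) + 1)) *
            ((pairs N₁ K₁ 1).card : ℝ)
          ≤ 2 / (H : ℝ) * ((2 * M) * (2 * G)) * ((N₁ : ℝ) * K₁) := by gcongr
        _ = 8 / H * ((M : ℝ) * G) * (N₁ * K₁) := by ring
        _ ≤ 8 / H * (352 * (y ^ 4 * (N₁ : ℝ) ^ 2)) * (N₁ * K₁) := by gcongr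
        _ = 2816 * y ^ 4 / H * ((N₁ : ℝ) ^ 3 * K₁) := by ring
        _ ≤ 2816 * y ^ 4 / H * (128 * H * x ^ 4) := by gcongr
        _ = 360448 * (x ^ 4 * y ^ 4) := by field_simp; ring
        _ ≤ 400000 * (x ^ 4 * y ^ 4) := by
          have : 0 ≤ x ^ 4 * y ^ 4 := by positivity
          linarith
        _ ≤ 400000 * SB x y S := by gcongr
        _ ≤ 400000 * (N ^ ε * SB x y S) := by
          have : SB x y S ≤ N ^ ε * SB x y S := le_mul_of_one_le_left hSB0 hNε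
          linarith
    have herr : CL * ((⌈C₀ * N ^ 2⌉₊ : ℕ) : ℝ) ^ (ε / 2) * (√((M : ℝ) * G) / H) *
        nB N₁ K₁ H 1 1 1 1 a ≤ CL * (2 * C₀) ^ (ε / 2) * (CA + CB) * (N ^ ε * SB x y S) := by
      have hT := BCA_T C₀ N ε (by linarith) hN hε
      have hT0 : 0 ≤ ((⌈C₀ * N ^ 2⌉₊ : ℕ) : ℝ) ^ (ε / 2) := Real.rpow_nonneg (Nat.cast_nonneg _) _
      calc CL * ((⌈C₀ * N ^ 2⌉₊ : ℕ) : ℝ) ^ (ε / 2) * (√((M : ℝ) * G) / H) * nB N₁ K₁ H 1 1 1 1 a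
          = CL * ((⌈C₀ * N ^ 2⌉₊ : ℕ) : ℝ) ^ (ε / 2) *
              (√((M : ℝ) * G) / H * nB N₁ K₁ H 1 1 1 1 a) := by ring
        _ ≤ CL * ((⌈C₀ * N ^ 2⌉₊ : ℕ) : ℝ) ^ (ε / 2) * ((CA + CB) * SB x y S) :=
            mul_le_mul_of_nonneg_left ha3 (by positivity)
        _ ≤ CL * ((2 * C₀) ^ (ε / 2) * N ^ ε) * ((CA + CB) * SB x y S) := by
            apply mul_le_mul_of_nonneg_right _ (by positivity)
            exact mul_le_mul_of_nonneg_left hT (by linarith)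
        _ = _ := by ring
    calc _ ≤ 400000 * (N ^ ε * SB x y S) +
          CL * (2 * C₀) ^ (ε / 2) * (CA + CB) * (N ^ ε * SB x y S) := add_le_add hmain herr
      _ = _ := by ring
  · have hH0 : H = 0 := by omega
    rw [hH0] at hHltR
    have hHl : (N₁ : ℝ) ^ 3 * K₁ ≤ 64 * V := by simpa using hHltR
    have hNK0 : 0 < (N₁ : ℝ) ^ 3 * K₁ := by positivity
    have hterm : ∀ p ∈ pairs N₁ K₁ 1, ((fibG (-(⌈4 * (x ^ 2 * (N₁ : ℝ))⌉₊ : ℤ))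
        (-(⌈4 * (y ^ 4 * (N₁ : ℝ) / x ^ 2)⌉₊ : ℤ)) 1 M G V 1 (p.1 ^ 3 * p.2 * 1) 0 0
        (ρ p).1 (ρ p).2.1 (ρ p).2.2 (c₀ p)).card : ℝ) ≤
          (M : ℝ) * G * (80 * V / ((N₁ : ℝ) ^ 3 * K₁)) := by
      intro p hp
      have hp' := Finset.mem_filter.mp hp
      have hp1 := hp'.1
      rw [Finset.mem_product, Finset.mem_Icc, Finset.mem_Icc] at hp1
      have hn1 : 1 ≤ p.1 := hp1.1.1
      have hk1 : 1 ≤ p.2 := hp1.2.1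
      have hq1 : 1 ≤ p.1 ^ 3 * p.2 * 1 := by
        rw [mul_one]
        exact Nat.mul_pos (Nat.pow_pos hn1) hk1
      refine (BCA_fib _ _ _ M G V (p.1 ^ 3 * p.2 * 1) _ _ _ _ hq1).trans ?_
      apply mul_le_mul_of_nonneg_left _ (by positivity)
      have h1 : N₁ ^ 3 * K₁ ≤ 16 * (p.1 ^ 3 * p.2) := by
        calc N₁ ^ 3 * K₁ ≤ (2 * p.1) ^ 3 * (2 * p.2) :=
              Nat.mul_le_mul (Nat.pow_le_pow_left hp'.2.1.le 3) hp'.2.2.1.le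
          _ = 16 * (p.1 ^ 3 * p.2) := by ring
      have h2 : (N₁ : ℝ) ^ 3 * K₁ ≤ 16 * ((p.1 ^ 3 * p.2 * 1 : ℕ) : ℝ) := by
        rw [mul_one]
        exact_mod_cast h1
      have hq0 : (0 : ℝ) < ((p.1 ^ 3 * p.2 * 1 : ℕ) : ℝ) := by exact_mod_cast hq1
      have h3 : (V : ℝ) / ((p.1 ^ 3 * p.2 * 1 : ℕ) : ℝ) ≤ 16 * V / ((N₁ : ℝ) ^ 3 * K₁) := by
        rw [div_le_div_iff₀ hq0 hNK0]
        calc (V : ℝ) * ((N₁ : ℝ) ^ 3 * K₁) ≤ V * (16 * ((p.1 ^ 3 * p.2 * 1 : ℕ) : ℝ)) := by gcongr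
          _ = 16 * V * ((p.1 ^ 3 * p.2 * 1 : ℕ) : ℝ) := by ring
      have h4 : 1 ≤ 64 * V / ((N₁ : ℝ) ^ 3 * K₁) := by
        rw [le_div_iff₀ hNK0]
        linarith
      have h5 : 80 * (V : ℝ) / ((N₁ : ℝ) ^ 3 * K₁) = 16 * V / ((N₁ : ℝ) ^ 3 * K₁) +
          64 * V / ((N₁ : ℝ) ^ 3 * K₁) := by ring
      rw [h5]
      linarith
    have hall : (F.card : ℝ) ≤ 400000 * (N ^ ε * SB x y S) := by
      calc (F.card : ℝ) ≤ _ := hcard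
        _ ≤ ∑ p ∈ pairs N₁ K₁ 1, (M : ℝ) * G * (80 * V / ((N₁ : ℝ) ^ 3 * K₁)) :=
            Finset.sum_le_sum hterm
        _ = ((pairs N₁ K₁ 1).card : ℝ) * ((M : ℝ) * G * (80 * V / ((N₁ : ℝ) ^ 3 * K₁))) := by
            rw [Finset.sum_const, nsmul_eq_mul]
        _ ≤ ((N₁ : ℝ) * K₁) * (352 * (y ^ 4 * (N₁ : ℝ) ^ 2) * (80 * x ^ 4 / ((N₁ : ℝ) ^ 3 * K₁))) := by
            gcongr
        _ = 28160 * (x ^ 4 * y ^ 4) := by field_simp; ring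
        _ ≤ 400000 * (x ^ 4 * y ^ 4) := by
          have : 0 ≤ x ^ 4 * y ^ 4 := by positivity
          linarith
        _ ≤ 400000 * SB x y S := by gcongr
        _ ≤ 400000 * (N ^ ε * SB x y S) := by
          have : SB x y S ≤ N ^ ε * SB x y S := le_mul_of_one_le_left hSB0 hNε
          linarith
    have hextra : 0 ≤ CL * (2 * C₀) ^ (ε / 2) * (CA + CB) * (N ^ ε * SB x y S) := by positivity
    calc (F.card : ℝ) ≤ 400000 * (N ^ ε * SB x y S) +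
          CL * (2 * C₀) ^ (ε / 2) * (CA + CB) * (N ^ ε * SB x y S) := by linarith
      _ = _ := by ring

end Pool.Agent.T5
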