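import Pool.Agent.helper95.T5.SpecN

set_option autoImplicit false

/-!
# T5 module DM: the twisted dual map with a general modulus
-/

namespace Pool.Agent.T5

open Finset NumberField Pool.Agent.helper3.FT Pool.Agent.helper47.RA

/-- an integral form of `nd (p / q) ≤ 1 / M` -/
lemma DM_nd (M : ℕ) (hM : 1 ≤ M) (p q : ℤ) (hq : 0 < q) (x : ℝ) (hx : x * q = p)
    (h : nd x ≤ 1 / M) : ∃ r : ℤ, |((p - q * r : ℤ) : ℝ)| ≤ q / M := by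
  refine ⟨round x, ?_⟩
  have hqr : (0 : ℝ) < q := by exact_mod_cast hq
  have hMr : (0 : ℝ) < M := by exact_mod_cast hM
  unfold nd at h
  have h2 : |x - round x| * q = |((p - q * (round x : ℤ) : ℤ) : ℝ)| := by
    have h3 : ((p - q * (round x : ℤ) : ℤ) : ℝ) = (x - round x) * q := by
      push_cast
      rw [← hx]
      ring
    rw [h3, abs_mul, abs_of_pos hqr]
  rw [← h2]
  calc |x - round x| * q ≤ 1 / M * q := mul_le_mul_of_nonneg_right h hqr.le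
    _ = q / M := by ring

/-- **DM** -/
theorem DM : DM_stmt := by
  intro n k q₁ q₂ r s M G h hn hk hq₁ hq₂ hr1 hs1 hM hG hh hcop α β γ hres u v hu hv h1 h2
  have hn0 : (0 : ℝ) < n := by exact_mod_cast hn
  have hk0 : (0 : ℝ) < k := by exact_mod_cast hk
  have hr0 : (0 : ℝ) < r := by exact_mod_cast hr1
  have hs0 : (0 : ℝ) < s := by exact_mod_cast hs1
  have hM0 : (0 : ℝ) < M := by exact_mod_cast hM
  have hG0 : (0 : ℝ) < G := by exact_mod_cast hG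
  have hh0 : (0 : ℝ) < h := by exact_mod_cast hh
  have hq10 : (0 : ℝ) < q₁ := by exact_mod_cast hq₁
  have hq20 : (0 : ℝ) < q₂ := by exact_mod_cast hq₂
  have hq : (0 : ℤ) < (n : ℤ) ^ 3 * k * (r * s) := by
    have a1 : (0 : ℤ) < n := by exact_mod_cast hn
    have a2 : (0 : ℤ) < k := by exact_mod_cast hk
    have a3 : (0 : ℤ) < r := by exact_mod_cast hr1
    have a4 : (0 : ℤ) < s := by exact_mod_cast hs1
    positivity
  obtain ⟨r1, hr1'⟩ := DM_nd M hM (h * (2 * α * u + β * v)) ((n : ℤ) ^ 3 * k * (r * s)) hq _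
    (by push_cast; field_simp) h1
  obtain ⟨r2, hr2'⟩ := DM_nd G hG (h * (β * u + 2 * γ * v)) ((n : ℤ) ^ 3 * k * (r * s)) hq _
    (by push_cast; field_simp) h2
  obtain ⟨a, ha⟩ := hres.hα
  obtain ⟨b, hb⟩ := hres.hβ
  obtain ⟨c, hc⟩ := hres.hγ
  obtain ⟨a', ha'⟩ := hres.kα
  obtain ⟨b', hb'⟩ := hres.kβ
  obtain ⟨c', hc'⟩ := hres.kγ
  have hcopZ : IsCoprime ((n : ℤ) * r) ((k : ℤ) * s) := by
    have := Nat.isCoprime_iff_coprime.mpr hcop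
    push_cast at this
    exact this
  have hcopnk : IsCoprime (n : ℤ) (k : ℤ) :=
    (IsCoprime.of_mul_left_left hcopZ).of_mul_right_left
  have hcopksn : IsCoprime ((k : ℤ) * s) (n : ℤ) :=
    (IsCoprime.of_mul_left_left hcopZ).symm
  obtain ⟨ξ, hξ⟩ : ∃ ξ : ℤ, ξ = h * (2 * α * u + β * v) - (n : ℤ) ^ 3 * k * (r * s) * r1 :=
    ⟨_, rfl⟩
  obtain ⟨Ξ, hΞ⟩ : ∃ Ξ : ℤ, Ξ = h * (β * u + 2 * γ * v) - (n : ℤ) ^ 3 * k * (r * s) * r2 :=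
    ⟨_, rfl⟩
  rw [← hξ] at hr1'
  rw [← hΞ] at hr2'
  -- A
  obtain ⟨A, hA⟩ : (n : ℤ) ^ 3 ∣ h * v + k ^ 2 * ξ := by
    refine ⟨2 * h * r * a * u * k ^ 2 + h * v * r * b - k ^ 3 * (r * s) * r1, ?_⟩
    have e1 : (h : ℤ) * v + k ^ 2 * ξ = h * v * (β * k ^ 2 + 1) + 2 * h * α * u * k ^ 2
        - (n : ℤ) ^ 3 * k * (r * s) * k ^ 2 * r1 := by rw [hξ]; ring
    rw [e1, hb, ha]; ring
  -- X
  obtain ⟨X, hX⟩ : (k : ℤ) * s ∣ Ξ := by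
    refine ⟨h * (b' * u + 2 * c' * v) - (n : ℤ) ^ 3 * r * r2, ?_⟩
    rw [hΞ, hb', hc']; ring
  have hcop3 : IsCoprime ((n : ℤ) ^ 3) ((k : ℤ) ^ 2) := hcopnk.pow
  obtain ⟨A', hA'⟩ : (n : ℤ) ^ 3 ∣ q₁ * h * u + 2 * q₂ * n ^ 2 * ξ + q₁ * k ^ 2 * Ξ := by
    refine hcop3.dvd_of_dvd_mul_left
      (z := (q₁ * h * u + 2 * q₂ * n ^ 2 * ξ + q₁ * k ^ 2 * Ξ : ℤ)) ?_
    refine ⟨2 * q₂ * n ^ 2 * A + q₁ * h * u * r * b * k ^ 2 + 2 * h * v * r * c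
      - q₁ * k ^ 5 * (r * s) * r2, ?_⟩
    have e1 : (k : ℤ) ^ 2 * (q₁ * h * u + 2 * q₂ * n ^ 2 * ξ + q₁ * k ^ 2 * Ξ) =
        2 * q₂ * n ^ 2 * (h * v + k ^ 2 * ξ) - 2 * q₂ * n ^ 2 * h * v + k ^ 2 * q₁ * h * u
          + q₁ * k ^ 4 * Ξ := by
      ring
    rw [e1, hA, hΞ]
    have e2 : (q₁ : ℤ) * (k : ℤ) ^ 4 * (h * (β * u + 2 * γ * v)
          - (n : ℤ) ^ 3 * k * (r * s) * r2) =
        q₁ * h * u * k ^ 2 * (β * k ^ 2 + 1) - q₁ * h * u * k ^ 2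
          + 2 * h * v * (q₁ * γ * k ^ 4 - q₂ * n ^ 2)
          + 2 * h * v * q₂ * n ^ 2 - q₁ * (n : ℤ) ^ 3 * k ^ 5 * (r * s) * r2 := by ring
    rw [e2, hb, hc]; ring
  obtain ⟨B, hB⟩ : (k : ℤ) * s ∣ 2 * n * A' - 5 * q₂ * ξ := by
    have hcop2 : IsCoprime ((k : ℤ) * s) ((n : ℤ) ^ 2) := hcopksn.pow_right
    refine hcop2.dvd_of_dvd_mul_left ?_
    have e1 : (n : ℤ) ^ 2 * (2 * n * A' - 5 * q₂ * ξ) =
        2 * (n ^ 3 * A') - 5 * q₂ * n ^ 2 * ξ := by ring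
    rw [e1, ← hA']
    have e2 : 2 * ((q₁ : ℤ) * h * u + 2 * q₂ * n ^ 2 * ξ + q₁ * k ^ 2 * Ξ) - 5 * q₂ * n ^ 2 * ξ =
        2 * q₁ * h * u - q₂ * n ^ 2 * ξ + 2 * q₁ * k ^ 2 * Ξ := by ring
    rw [e2]
    refine dvd_add ?_ (Dvd.dvd.mul_left ⟨X, hX⟩ _)
    refine ⟨-(2 * h * u * a' + q₂ * h * n ^ 2 * b' * v - q₂ * n ^ 5 * r * r1), ?_⟩
    have e3 : 2 * (q₁ : ℤ) * h * u - q₂ * n ^ 2 * ξ = -(2 * h * u * (q₂ * α * n ^ 2 - q₁))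
        - q₂ * h * n ^ 2 * β * v + q₂ * n ^ 5 * k * (r * s) * r1 := by rw [hξ]; ring
    rw [e3, ha', hb']; ring
  -- sizes
  have hur : |(u : ℝ)| ≤ 4 * M := by exact_mod_cast hu
  have hvr : |(v : ℝ)| ≤ 4 * G := by exact_mod_cast hv
  have hξr : |(ξ : ℝ)| ≤ (n : ℝ) ^ 3 * k * (r * s) / M := by
    have := hr1'
    push_cast at this
    exact this
  have hΞr : |(Ξ : ℝ)| ≤ (n : ℝ) ^ 3 * k * (r * s) / G := by
    have := hr2'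
    push_cast at this
    exact this
  have hn3 : (0 : ℝ) < (n : ℝ) ^ 3 := by positivity
  refine ⟨A, A', B, X, ?_, ?_, ?_, ?_, ?_, ?_⟩
  · unfold F1
    have t1 : (h : ℤ) * v = n ^ 3 * A - k ^ 2 * ξ := by linarith
    have t2 : 5 * (q₂ : ℤ) * ξ = 2 * n * A' - k * s * B := by linarith
    calc 5 * (q₂ : ℤ) * h * v = 5 * q₂ * (h * v) := by ring
      _ = 5 * q₂ * (n ^ 3 * A) - k ^ 2 * (5 * q₂ * ξ) := by rw [t1]; ring
      _ = _ := by rw [t2]; ring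
  · unfold F2
    have t1 : (q₁ : ℤ) * h * u = n ^ 3 * A' - 2 * q₂ * n ^ 2 * ξ - q₁ * k ^ 2 * Ξ := by linarith
    have t2 : 5 * (q₂ : ℤ) * ξ = 2 * n * A' - k * s * B := by linarith
    calc 5 * (q₁ : ℤ) * h * u = 5 * (q₁ * h * u) := by ring
      _ = 5 * (n ^ 3 * A') - 2 * n ^ 2 * (5 * q₂ * ξ) - 5 * (q₁ * k ^ 2 * Ξ) := by rw [t1]; ring
      _ = _ := by rw [t2, hX]; ring
  · -- |A|
    have e0 : (n : ℝ) ^ 3 * A = h * v + k ^ 2 * ξ := by exact_mod_cast hA.symm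
    have e1 : (n : ℝ) ^ 3 * |(A : ℝ)| ≤ h * (4 * G) + k ^ 2 * ((n : ℝ) ^ 3 * k * (r * s) / M) := by
      have : |(n : ℝ) ^ 3 * A| ≤ h * |(v : ℝ)| + k ^ 2 * |(ξ : ℝ)| := by
        rw [e0]
        refine (abs_add_le _ _).trans (le_of_eq ?_)
        rw [abs_mul, abs_mul, abs_of_pos hh0, abs_of_nonneg (by positivity : (0:ℝ) ≤ (k:ℝ) ^ 2)]
      rw [abs_mul, abs_of_pos hn3] at this
      refine this.trans ?_
      gcongr
    have e2 : (n : ℝ) ^ 3 * (4 * h * G / (n : ℝ) ^ 3 + (k : ℝ) ^ 3 * (r * s) / M) =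
        h * (4 * G) + k ^ 2 * ((n : ℝ) ^ 3 * k * (r * s) / M) := by
      field_simp
    rw [← e2] at e1
    exact le_of_mul_le_mul_left e1 hn3
  · -- |A'|
    have e0 : (n : ℝ) ^ 3 * A' = q₁ * h * u + 2 * q₂ * n ^ 2 * ξ + q₁ * k ^ 2 * Ξ := by
      exact_mod_cast hA'.symm
    have e1 : (n : ℝ) ^ 3 * |(A' : ℝ)| ≤ q₁ * h * (4 * M) +
        2 * q₂ * n ^ 2 * ((n : ℝ) ^ 3 * k * (r * s) / M) +
        q₁ * k ^ 2 * ((n : ℝ) ^ 3 * k * (r * s) / G) := by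
      have : |(n : ℝ) ^ 3 * A'| ≤ q₁ * h * |(u : ℝ)| + 2 * q₂ * n ^ 2 * |(ξ : ℝ)| +
          q₁ * k ^ 2 * |(Ξ : ℝ)| := by
        rw [e0]
        refine (abs_add_three _ _ _).trans (le_of_eq ?_)
        rw [abs_mul ((q₁ : ℝ) * h), abs_mul (2 * (q₂ : ℝ) * (n : ℝ) ^ 2),
          abs_mul ((q₁ : ℝ) * (k : ℝ) ^ 2),
          abs_of_nonneg (by positivity : (0:ℝ) ≤ (q₁ : ℝ) * h),
          abs_of_nonneg (by positivity : (0:ℝ) ≤ 2 * (q₂ : ℝ) * (n : ℝ) ^ 2),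
          abs_of_nonneg (by positivity : (0:ℝ) ≤ (q₁ : ℝ) * (k : ℝ) ^ 2)]
      rw [abs_mul, abs_of_pos hn3] at this
      refine this.trans ?_
      gcongr
    have e2 : (n : ℝ) ^ 3 * (4 * q₁ * h * M / (n : ℝ) ^ 3 +
        2 * q₂ * (n : ℝ) ^ 2 * k * (r * s) / M + q₁ * (k : ℝ) ^ 3 * (r * s) / G) =
        q₁ * h * (4 * M) + 2 * q₂ * n ^ 2 * ((n : ℝ) ^ 3 * k * (r * s) / M) +
        q₁ * k ^ 2 * ((n : ℝ) ^ 3 * k * (r * s) / G) := by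
      field_simp
    rw [← e2] at e1
    exact le_of_mul_le_mul_left e1 hn3
  · -- |B|
    have hks : (0 : ℝ) < (k : ℝ) * s := by positivity
    have e0 : (k : ℝ) * s * B = 2 * n * A' - 5 * q₂ * ξ := by exact_mod_cast hB.symm
    have e1 : (k : ℝ) * s * |(B : ℝ)| ≤ 2 * n * |(A' : ℝ)| +
        5 * q₂ * ((n : ℝ) ^ 3 * k * (r * s) / M) := by
      have : |(k : ℝ) * s * B| ≤ 2 * n * |(A' : ℝ)| + 5 * q₂ * |(ξ : ℝ)| := by
        rw [e0]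
        refine (abs_sub _ _).trans (le_of_eq ?_)
        rw [abs_mul (2 * (n : ℝ)), abs_mul (5 * (q₂ : ℝ)),
          abs_of_nonneg (by positivity : (0:ℝ) ≤ 2 * (n:ℝ)),
          abs_of_nonneg (by positivity : (0:ℝ) ≤ 5 * (q₂:ℝ))]
      rw [abs_mul, abs_of_pos hks] at this
      refine this.trans ?_
      gcongr
    have e2 : (k : ℝ) * s * ((2 * n * |(A' : ℝ)| / k + 5 * q₂ * (n : ℝ) ^ 3 * r * s / M) / s) =
        2 * n * |(A' : ℝ)| + 5 * q₂ * ((n : ℝ) ^ 3 * k * (r * s) / M) := by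
      field_simp
    rw [← e2] at e1
    exact le_of_mul_le_mul_left e1 hks
  · -- |X|
    have hks : (0 : ℝ) < (k : ℝ) * s := by positivity
    have e0 : (Ξ : ℝ) = k * s * X := by exact_mod_cast hX
    have e1 : (k : ℝ) * s * |(X : ℝ)| ≤ (n : ℝ) ^ 3 * k * (r * s) / G := by
      rw [e0, abs_mul, abs_of_pos hks] at hΞr
      exact hΞr
    have e2 : (k : ℝ) * s * ((n : ℝ) ^ 3 * r / G) = (n : ℝ) ^ 3 * k * (r * s) / G := by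
      field_simp
    rw [← e2] at e1
    exact le_of_mul_le_mul_left e1 hks

end Pool.Agent.T5
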