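import Pool.Agent.helper82.T5.SpecS

set_option autoImplicit false

/-!
# T5 (MP_16912e_nt), row STA: tails of two sums
-/

namespace Pool.Agent.T5

open Finset NumberField Pool.Agent.helper3.FT Pool.Agent.helper47.RA

/-- the number of divisors is at most twice the square root -/
theorem STA_div (g : ℕ) (hg : 1 ≤ g) : g.divisors.card ≤ 2 * Nat.sqrt g := by
  have h1 : (g.divisors.filter (fun d => d ≤ Nat.sqrt g)).card ≤ Nat.sqrt g := by
    have : g.divisors.filter (fun d => d ≤ Nat.sqrt g) ⊆ Finset.Icc 1 (Nat.sqrt g) := by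
      intro d hd
      rw [Finset.mem_filter] at hd
      rw [Finset.mem_Icc]
      exact ⟨Nat.pos_of_mem_divisors hd.1, hd.2⟩
    have h := Finset.card_le_card this
    rwa [Nat.card_Icc, Nat.add_sub_cancel] at h
  have h2 : (g.divisors.filter (fun d => ¬ d ≤ Nat.sqrt g)).card ≤ Nat.sqrt g := by
    have h3 : (g.divisors.filter (fun d => ¬ d ≤ Nat.sqrt g)).card ≤
        (Finset.Icc 1 (Nat.sqrt g)).card := by
      refine Finset.card_le_card_of_injOn (fun d => g / d) ?_ ?_
      · intro d hd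
        have hd' := Finset.mem_filter.mp hd
        have hdg : d ∣ g := Nat.dvd_of_mem_divisors hd'.1
        have hd0 : 0 < d := Nat.pos_of_mem_divisors hd'.1
        have hmul : g / d * d = g := Nat.div_mul_cancel hdg
        have hlt : g < (Nat.sqrt g + 1) * (Nat.sqrt g + 1) := Nat.lt_succ_sqrt g
        have hq : 0 < g / d := Nat.div_pos (Nat.le_of_dvd (by omega) hdg) hd0
        have hds : Nat.sqrt g + 1 ≤ d := by
          have := hd'.2
          omega
        have hle : g / d ≤ Nat.sqrt g := by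
          by_contra h
          have h4 : Nat.sqrt g + 1 ≤ g / d := by omega
          have h5 := Nat.mul_le_mul h4 hds
          rw [hmul] at h5
          omega
        show g / d ∈ (Finset.Icc 1 (Nat.sqrt g) : Finset ℕ)
        rw [Finset.mem_Icc]
        exact ⟨hq, hle⟩
      · intro d hd d' hd' h
        have h1 := (Finset.mem_filter.mp hd).1
        have h2 := (Finset.mem_filter.mp hd').1
        have e1 : g / (g / d) = d := Nat.div_div_self (Nat.dvd_of_mem_divisors h1) (by omega)
        have e2 : g / (g / d') = d' := Nat.div_div_self (Nat.dvd_of_mem_divisors h2) (by omega)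
        have h' : g / d = g / d' := h
        rw [← e1, ← e2, h']
    rwa [Nat.card_Icc, Nat.add_sub_cancel] at h3
  have h3 := Finset.card_filter_add_card_filter_not (s := g.divisors) (fun d => d ≤ Nat.sqrt g)
  omega

/-- telescoping bound -/
theorem STA_tel (f F : ℕ → ℝ) (w : ℕ) (h0 : ∀ g, w < g → 0 ≤ f g)
    (h : ∀ g, w < g → f g ≤ F (g - 1) - F g) (hF : ∀ g, 0 ≤ F g) (S : Finset ℕ)
    (hS : ∀ g ∈ S, w < g) : ∑ g ∈ S, f g ≤ F w := by
  have key : ∀ n : ℕ, ∑ g ∈ Finset.Ioc w (w + n), f g ≤ F w - F (w + n) := by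
    intro n
    induction n with
    | zero => simp
    | succ n ih =>
      rw [← add_assoc, Finset.sum_Ioc_succ_top (by omega)]
      have h1 := h (w + n + 1) (by omega)
      rw [Nat.add_sub_cancel] at h1
      linarith
  have hsub : S ⊆ Finset.Ioc w (w + S.sup id) := by
    intro g hg
    rw [Finset.mem_Ioc]
    have h1 : id g ≤ S.sup id := Finset.le_sup hg
    have h2 : g ≤ S.sup id := h1
    exact ⟨hS g hg, by omega⟩
  calc ∑ g ∈ S, f g ≤ ∑ g ∈ Finset.Ioc w (w + S.sup id), f g :=
        Finset.sum_le_sum_of_subset_of_nonneg hsub fun g hg _ =>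
          h0 g (Finset.mem_Ioc.mp hg).1
    _ ≤ F w - F (w + S.sup id) := key _
    _ ≤ F w := by linarith [hF (w + S.sup id)]

/-- **STA** -/
theorem STA : STA_stmt := by
  intro w S hw hS
  have hw0 : (0 : ℝ) < w := by exact_mod_cast (by omega : 0 < w)
  constructor
  · have h1 : ∑ g ∈ S, (g.divisors.card : ℝ) / (g : ℝ) ^ 2 ≤ 4 / √(w : ℝ) := by
      refine STA_tel (fun g => (g.divisors.card : ℝ) / (g : ℝ) ^ 2) (fun g => 4 / √(g : ℝ)) w
        (fun g _ => by positivity) (fun g hg => ?_) (fun g => by positivity) S hS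
      show (g.divisors.card : ℝ) / (g : ℝ) ^ 2 ≤ 4 / √((g - 1 : ℕ) : ℝ) - 4 / √(g : ℝ)
      obtain ⟨n, rfl⟩ : ∃ n, g = n + 1 := ⟨g - 1, by omega⟩
      have hn : 1 ≤ n := by omega
      rw [Nat.add_sub_cancel]
      have hd : ((n + 1).divisors.card : ℝ) ≤ 2 * √((n + 1 : ℕ) : ℝ) := by
        have h1 : ((n + 1).divisors.card : ℝ) ≤ ((2 * Nat.sqrt (n + 1) : ℕ) : ℝ) := by
          exact_mod_cast STA_div (n + 1) (by omega)
        have h2 : ((Nat.sqrt (n + 1) : ℕ) : ℝ) ≤ √((n + 1 : ℕ) : ℝ) := Real.nat_sqrt_le_real_sqrt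
        push_cast at h1 h2 ⊢
        linarith
      set a : ℝ := √(n : ℝ) with ha
      set b : ℝ := √((n + 1 : ℕ) : ℝ) with hb
      have hn0 : (0 : ℝ) < n := by exact_mod_cast (by omega : 0 < n)
      have ha0 : 0 < a := Real.sqrt_pos.mpr hn0
      have hb0 : 0 < b := Real.sqrt_pos.mpr (by positivity)
      have ha2 : a ^ 2 = n := Real.sq_sqrt hn0.le
      have hb2 : b ^ 2 = (n : ℝ) + 1 := by
        rw [hb, Real.sq_sqrt (by positivity)]
        push_cast
        ring
      have hab : a ≤ b := by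
        apply Real.sqrt_le_sqrt
        push_cast
        linarith
      have e1 : (((n + 1 : ℕ) : ℝ)) ^ 2 = b ^ 4 := by
        have : ((n + 1 : ℕ) : ℝ) = b ^ 2 := by
          rw [hb2]
          push_cast
          ring
        rw [this]
        ring
      rw [e1]
      have h3 : ((n + 1).divisors.card : ℝ) / b ^ 4 ≤ 2 * b / b ^ 4 := by
        gcongr
      refine h3.trans ?_
      have h4 : 2 * b / b ^ 4 = 2 / b ^ 3 := by
        field_simp
      rw [h4, div_sub_div _ _ ha0.ne' hb0.ne', div_le_div_iff₀ (by positivity) (by positivity)]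
      have h5 : (b - a) * (b + a) = 1 := by nlinarith
      have h6 : 1 ≤ 2 * b * (b - a) := by nlinarith
      have h7 : a * b ≤ b ^ 2 := by nlinarith
      have h8 : b ^ 2 ≤ b ^ 2 * (2 * b * (b - a)) := by
        have : 0 ≤ b ^ 2 := by positivity
        nlinarith
      nlinarith
    refine h1.trans ?_
    have : 0 < √(w : ℝ) := Real.sqrt_pos.mpr hw0
    gcongr
    norm_num
  · have h1 : ∑ g ∈ S, 1 / (g : ℝ) ^ 2 ≤ 1 / (w : ℝ) := by
      refine STA_tel (fun g => 1 / (g : ℝ) ^ 2) (fun g => 1 / (g : ℝ)) w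
        (fun g _ => by positivity) (fun g hg => ?_) (fun g => by positivity) S hS
      show 1 / (g : ℝ) ^ 2 ≤ 1 / ((g - 1 : ℕ) : ℝ) - 1 / (g : ℝ)
      obtain ⟨n, rfl⟩ : ∃ n, g = n + 1 := ⟨g - 1, by omega⟩
      rw [Nat.add_sub_cancel]
      have hn0 : (0 : ℝ) < n := by exact_mod_cast (by omega : 0 < n)
      push_cast
      rw [div_sub_div _ _ hn0.ne' (by positivity), div_le_div_iff₀ (by positivity) (by positivity)]
      nlinarith
    refine h1.trans ?_
    gcongr
    norm_num

end Pool.Agent.T5
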