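import Pool.Agent.helper94.T5.SpecT

set_option autoImplicit false

/-!
# T5 (MP_16912e_nt), row TA1: the divisions are exact
-/

namespace Pool.Agent.T5T

open Finset Pool.Agent.T5

/-- the algebra -/
theorem TA1_core (n k m g Z : ℤ) (hn : n ≠ 0) (hco : IsCoprime n k)
    (c1 : n ^ 3 ∣ Z * k ^ 4 + m * g * k ^ 2 - g ^ 2 * n ^ 2) (c2 : k ∣ m ^ 2 - Z * n ^ 2) :
    ∃ L R' tr d : ℤ, L * n ^ 2 = m * g + Z * k ^ 2 ∧ n * R' = g ^ 2 - L * k ^ 2 ∧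
      k * tr = Z * g - L * m ∧ d * n ^ 2 = tr ^ 2 - 4 * Z ^ 2 * L := by
  obtain ⟨R, hR⟩ := c2
  obtain ⟨a, ha⟩ := c1
  have h1 : n ^ 2 ∣ m * g + Z * k ^ 2 := by
    have h2 : IsCoprime (n ^ 2) (k ^ 2) := hco.pow
    refine h2.dvd_of_dvd_mul_left ⟨n * a + g ^ 2, ?_⟩
    linear_combination ha
  obtain ⟨L, hL⟩ := h1
  have h3 : n ∣ g ^ 2 - L * k ^ 2 := by
    refine ⟨-a, ?_⟩
    have h4 : n ^ 2 ≠ 0 := pow_ne_zero 2 hn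
    apply mul_left_cancel₀ h4
    linear_combination (-1) * ha + k ^ 2 * hL
  obtain ⟨R', hR'⟩ := h3
  have h5 : k ∣ Z * g - L * m := by
    have h6 : IsCoprime k (n ^ 2) := hco.symm.pow_right
    refine h6.dvd_of_dvd_mul_left ⟨-(g * R) - m * Z * k, ?_⟩
    linear_combination (-g) * hR + m * hL
  obtain ⟨tr, htr⟩ := h5
  have h7 : n ∣ Z * g + L * m := by
    have h8 : IsCoprime n (k ^ 2) := hco.pow_right
    refine h8.dvd_of_dvd_mul_left ⟨g * L * n - m * R', ?_⟩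
    linear_combination g * hL - m * hR'
  obtain ⟨s, hs⟩ := h7
  have h9 : n ^ 2 ∣ tr ^ 2 - 4 * Z ^ 2 * L := by
    have h10 : IsCoprime (n ^ 2) (k ^ 2) := hco.pow
    refine h10.dvd_of_dvd_mul_left ⟨s ^ 2 - 4 * Z * L ^ 2, ?_⟩
    have e1 : k ^ 2 * tr ^ 2 = (Z * g - L * m) ^ 2 := by rw [htr]; ring
    have e2 : n ^ 2 * s ^ 2 = (Z * g + L * m) ^ 2 := by rw [hs]; ring
    linear_combination e1 - e2 - 4 * Z * L * hL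
  obtain ⟨d, hd⟩ := h9
  exact ⟨L, R', tr, d, by rw [hL]; ring, hR'.symm, htr.symm, by rw [hd]; ring⟩

/-- **TA1** -/
theorem TA1 : TA1_stmt := by
  rintro ⟨⟨n, k⟩, ⟨m, g, Z⟩⟩ ht
  have hn1 : 1 ≤ n := ht.n1
  have hk1 : 1 ≤ k := ht.k1
  have hn : (n : ℤ) ≠ 0 := by
    have : (n : ℤ) ≠ ((0 : ℕ) : ℤ) := by exact_mod_cast (by omega : n ≠ 0)
    simpa using this
  have hk : (k : ℤ) ≠ 0 := by
    have : (k : ℤ) ≠ ((0 : ℕ) : ℤ) := by exact_mod_cast (by omega : k ≠ 0)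
    simpa using this
  have hco : IsCoprime (n : ℤ) (k : ℤ) := Nat.isCoprime_iff_coprime.mpr ht.co
  have c1 : (n : ℤ) ^ 3 ∣ Z * (k : ℤ) ^ 4 + m * g * (k : ℤ) ^ 2 - g ^ 2 * (n : ℤ) ^ 2 := ht.c1
  have c2 : (k : ℤ) ∣ m ^ 2 - Z * (n : ℤ) ^ 2 := ht.c2
  obtain ⟨L, R', tr, d, hL, hR', htr, hd⟩ := TA1_core n k m g Z hn hco c1 c2
  have hlam : lam ((n, k), (m, g, Z)) = L := by
    show (m * g + Z * (k : ℤ) ^ 2) / (n : ℤ) ^ 2 = L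
    rw [← hL, Int.mul_ediv_cancel _ (pow_ne_zero 2 hn)]
  have hdis : dis ((n, k), (m, g, Z)) = d := by
    show ((Z * g - lam ((n, k), (m, g, Z)) * m) ^ 2 -
      4 * Z ^ 2 * lam ((n, k), (m, g, Z)) * (k : ℤ) ^ 2) / ((n : ℤ) * k) ^ 2 = d
    rw [hlam]
    have h1 : (Z * g - L * m) ^ 2 - 4 * Z ^ 2 * L * (k : ℤ) ^ 2 = d * ((n : ℤ) * k) ^ 2 := by
      rw [← htr]
      linear_combination (-(k : ℤ) ^ 2) * hd
    rw [h1, Int.mul_ediv_cancel _ (pow_ne_zero 2 (mul_ne_zero hn hk))]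
  refine ⟨?_, ?_, ?_, ?_, tr, ?_, ?_⟩
  · rw [hlam]
    exact hL
  · show (k : ℤ) * ((Z * (n : ℤ) ^ 2 - m ^ 2) / (k : ℤ)) = Z * (n : ℤ) ^ 2 - m ^ 2
    refine Int.mul_ediv_cancel' ?_
    obtain ⟨R, hR⟩ := c2
    exact ⟨-R, by linear_combination (-1) * hR⟩
  · show (n : ℤ) * ((g ^ 2 - lam ((n, k), (m, g, Z)) * (k : ℤ) ^ 2) / (n : ℤ)) =
      g ^ 2 - lam ((n, k), (m, g, Z)) * (k : ℤ) ^ 2
    rw [hlam]
    exact Int.mul_ediv_cancel' ⟨R', hR'.symm⟩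
  · rw [hlam, hdis]
    show d * ((n : ℤ) * k) ^ 2 = (Z * g - L * m) ^ 2 - 4 * Z ^ 2 * L * (k : ℤ) ^ 2
    rw [← htr]
    linear_combination (k : ℤ) ^ 2 * hd
  · rw [hlam]
    exact htr
  · rw [hlam, hdis]
    exact hd

end Pool.Agent.T5T
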