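import Pool.Agent.helper94.T5.SpecT

set_option autoImplicit false

/-!
# T5 (MP_16912e_nt), row TA2: the weight of a tuple is the weight of its class
-/

namespace Pool.Agent.T5T

open Finset Pool.Agent.T5

/-- the two forms of the local weight agree -/
theorem TA2_fp (p : ℕ) (t : Tpl) :
    fp p t = T5P.fT p t.1.1 t.1.2 t.2.1 t.2.2.1 t.2.2.2 (lam t) (dis t) := by
  have hP : ¬ Pfund p (dis t) ↔ T5P.NF p (dis t) := by
    unfold Pfund T5P.NF
    split_ifs <;> tauto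
  have e1 : (p : ℤ) ∣ (t.1.1 : ℤ) ↔ p ∣ t.1.1 := Int.natCast_dvd_natCast
  have e2 : (p : ℤ) ∣ (t.1.2 : ℤ) ↔ p ∣ t.1.2 := Int.natCast_dvd_natCast
  unfold fp T5P.fT
  by_cases hN : T5P.NF p (dis t)
  · have hN' : ¬ Pfund p (dis t) := hP.mpr hN
    simp [e1, e2, hN, hN']
  · have hN' : Pfund p (dis t) := by
      by_contra h
      exact hN (hP.mp h)
    simp [e1, e2, hN, hN']

/-- **TA2** -/
theorem TA2 (hPL : Pool.Agent.T5P.PL_stmt) (hTA1 : TA1_stmt) : TA2_stmt := by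
  intro w t ht
  obtain ⟨h1, h2, _, _, tr, h5, h6⟩ := hTA1 t ht
  unfold fw T5P.FF
  refine Finset.prod_congr rfl fun p hp => ?_
  have hpp : p.Prime := (Finset.mem_filter.mp hp).2
  have hk1 : 1 ≤ t.1.2 := ht.k1
  have hk : (t.1.2 : ℤ) ≠ 0 := by
    intro h
    have : t.1.2 = 0 := by exact_mod_cast h
    omega
  rw [TA2_fp]
  refine hPL p hpp _ _ _ _ _ _ _ tr _ hk h2 ?_ h5 h6
  linear_combination (-1) * h1

end Pool.Agent.T5T
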